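import Pool.Agent.Lead.CRate

set_option autoImplicit false

namespace Pool.Agent.Results.MP_e3a9f0_pr.Q1

/-- No full-support probability distribution on the finite subsets of `ℕ+` has constant rate. -/
theorem result : ¬ ∃ (f : Finset ℕ+ → ℝ) (α : ℝ), (∀ x, 0 < f x) ∧ HasSum f 1 ∧
    ∀ x : Finset ℕ+, f x = α * ∑' y : Finset ℕ+, if x ⊆ y then f y else 0 := by
  rintro ⟨f, α, h0, hs, h⟩
  have := Pool.Agent.Lead.CRate.real (1 : ℕ+) f α (fun x => (h0 x).le) hs h
  exact (h0 _).ne' this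

end Pool.Agent.Results.MP_e3a9f0_pr.Q1
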